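import Mathlib

set_option autoImplicit false

namespace Pool.Agent.Results.MP_f836f4_co.Counter

inductive V : Type
  | P (w : List Bool) (b : Bool)
  | M (w : List Bool) (b c : Bool)

open V

def R : V → V → Prop
  | M w b c, v => v = P w (xor b c) ∨ v = P (false :: w) b ∨ v = P (true :: w) c
  | P _ _, _ => False

def G : SimpleGraph V where
  Adj u v := R u v ∨ R v u
  symm := ⟨fun _ _ h => h.symm⟩
  loopless := ⟨fun v h => by cases v <;> simp [R] at h⟩

def word : V → List Bool
  | P w _ => w
  | M w _ _ => w

def lev : V → ℕ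
  | P w _ => 2 * w.length
  | M w _ _ => 2 * w.length + 1

lemma lev_adj {u v : V} (h : G.Adj u v) : lev v ≤ lev u + 1 := by
  rcases h with h | h
  · cases u with
    | P => exact h.elim
    | M w b c => rcases h with rfl | rfl | rfl <;> simp [lev] <;> omega
  · cases v with
    | P => exact h.elim
    | M w b c => rcases h with rfl | rfl | rfl <;> simp [lev] <;> omega

lemma lev_walk {u v : V} (p : G.Walk u v) : lev v ≤ lev u + p.length := by
  induction p with
  | nil => simp
  | cons h p ih =>
    have := lev_adj h
    rw [SimpleGraph.Walk.length_cons]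
    omega

def Wk (v : V) (n : ℕ) : Prop := ∃ p : G.Walk (P [] false) v, p.length ≤ n

lemma Wk.step {u v : V} {n : ℕ} (h : Wk u n) (a : G.Adj u v) : Wk v (n + 1) := by
  obtain ⟨p, hp⟩ := h
  exact ⟨p.concat a, by rw [SimpleGraph.Walk.length_concat]; omega⟩

lemma Wk.mono {u : V} {n m : ℕ} (h : Wk u n) (hm : n ≤ m) : Wk u m := by
  obtain ⟨p, hp⟩ := h
  exact ⟨p, hp.trans hm⟩

lemma a0 (w : List Bool) (b c : Bool) : G.Adj (M w b c) (P w (xor b c)) := Or.inl (Or.inl rfl)
lemma a1 (w : List Bool) (b c : Bool) : G.Adj (M w b c) (P (false :: w) b) :=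
  Or.inl (Or.inr (Or.inl rfl))
lemma a2 (w : List Bool) (b c : Bool) : G.Adj (M w b c) (P (true :: w) c) :=
  Or.inl (Or.inr (Or.inr rfl))

lemma wkP (w : List Bool) : ∀ b, Wk (P w b) (2 * w.length + 4) := by
  induction w with
  | nil =>
    have h0 : Wk (P [] false) 0 := ⟨SimpleGraph.Walk.nil, le_rfl⟩
    intro b
    cases b
    · exact h0.mono (by omega)
    · exact (((h0.step (a0 [] false false).symm).step (a1 [] false false)).step
        (a1 [] false true).symm).step (a0 [] false true)
  | cons a w ih =>
    intro b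
    cases a
    · exact ((ih _).step (a0 w b b).symm).step (a1 w b b)
    · exact ((ih _).step (a0 w b b).symm).step (a2 w b b)

lemma wk (v : V) : Wk v (2 * (word v).length + 5) := by
  cases v with
  | P w b => exact (wkP w b).mono (by simp [word])
  | M w b c => exact (wkP w _).step (a0 w b c).symm

lemma conn : G.Connected := by
  refine SimpleGraph.Connected.mk (fun u v => ?_) (nonempty := ⟨P [] false⟩)
  obtain ⟨p, -⟩ := wk u
  obtain ⟨q, -⟩ := wk v
  exact p.reachable.symm.trans q.reachable

lemma dist_bounds (v : V) : 2 * (word v).length ≤ G.dist (P [] false) v ∧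
    G.dist (P [] false) v ≤ 2 * (word v).length + 5 := by
  constructor
  · obtain ⟨p, hp⟩ := conn.exists_walk_length_eq_dist (P [] false) v
    have := lev_walk p
    cases v <;> simp only [lev, word, List.length_nil] at this ⊢ <;> omega
  · obtain ⟨p, hp⟩ := wk v
    exact (SimpleGraph.dist_le p).trans hp

lemma adjM {w : List Bool} {b c : Bool} {v : V} (h : G.Adj (M w b c) v) :
    v = P w (xor b c) ∨ v = P (false :: w) b ∨ v = P (true :: w) c := by
  rcases h with h | h
  · exact h
  · cases v with
    | P => exact h.elim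
    | M => simp [R] at h

lemma adjP {w : List Bool} {b : Bool} {v : V} (h : G.Adj (P w b) v) :
    ∃ u c d, v = M u c d ∧
      ((w = u ∧ b = xor c d) ∨ (w = false :: u ∧ b = c) ∨ (w = true :: u ∧ b = d)) := by
  rcases h with h | h
  · exact h.elim
  · cases v with
    | P => exact h.elim
    | M u c d => exact ⟨u, c, d, rfl, by simpa [R] using h⟩

lemma locfin (v : V) : (G.neighborSet v).Finite := by
  cases v with
  | M w b c =>
    refine (Set.toFinite {P w (xor b c), P (false :: w) b, P (true :: w) c}).subset fun v hv => ?_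
    simpa using adjM hv
  | P w b =>
    refine ((Set.finite_range fun p : Bool × Bool => M w p.1 p.2).union
      (Set.finite_range fun p : Bool × Bool => M w.tail p.1 p.2)).subset fun v hv => ?_
    obtain ⟨u, c, d, rfl, ⟨rfl, -⟩ | ⟨rfl, -⟩ | ⟨rfl, -⟩⟩ := adjP hv
    · exact Or.inl ⟨(c, d), rfl⟩
    · exact Or.inr ⟨(c, d), rfl⟩
    · exact Or.inr ⟨(c, d), rfl⟩

lemma motion (g : G ≃g G) (hg : {v | g v ≠ v}.Finite) : g = SimpleGraph.Iso.refl := by
  obtain ⟨N, hN⟩ := (hg.image lev).bddAbove
  have key : ∀ k v, N < lev v + k → g v = v := by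
    intro k
    induction k with
    | zero =>
      intro v hv
      by_contra h
      have := hN ⟨v, h, rfl⟩
      omega
    | succ k ih =>
      intro v hv
      cases v with
      | M w b c =>
        have h1 := g.map_adj_iff.2 (a1 w b c).symm
        have h2 := g.map_adj_iff.2 (a2 w b c).symm
        rw [ih _ (by simp only [lev, List.length_cons] at hv ⊢; omega)] at h1 h2
        obtain ⟨u, c1, d1, e1, f1⟩ := adjP h1
        obtain ⟨u', c2, d2, e2, f2⟩ := adjP h2
        rw [e1] at e2 ⊢
        obtain ⟨rfl, rfl, rfl⟩ := M.inj e2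
        rcases f1 with ⟨rfl, h⟩ | ⟨f1, h⟩ | ⟨f1, h⟩ <;> rcases f2 with ⟨f2, h'⟩ | ⟨f2, h'⟩ | ⟨f2, h'⟩ <;>
          simp_all
      | P w b =>
        have h1 := g.map_adj_iff.2 (a0 w false b)
        have h2 := g.map_adj_iff.2 (a0 w true (!b))
        rw [ih _ (by simp only [lev] at hv ⊢; omega)] at h1 h2
        have e1 : xor false b = b := by cases b <;> rfl
        have e2 : xor true (!b) = b := by cases b <;> rfl
        rw [e1] at h1
        rw [e2] at h2
        rcases adjM h1 with h | h | h
        · rw [h, e1]
        · rcases adjM h2 with h' | h' | h' <;> rw [h] at h' <;> simp at h'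
        · rcases adjM h2 with h' | h' | h' <;> rw [h] at h' <;> simp at h'
  ext v
  exact key (N + 1) v (by omega)

def flip (x : List Bool → Bool) : V → V
  | P w b => P w (xor b (x w))
  | M w b c => M w (xor b (x (false :: w))) (xor c (x (true :: w)))

lemma flip_flip (x : List Bool → Bool) (v : V) : flip x (flip x v) = v := by
  cases v <;> simp [flip]

lemma flip_R (x : List Bool → Bool) (hx : ∀ w, x w = xor (x (false :: w)) (x (true :: w)))
    {u v : V} (h : R u v) : R (flip x u) (flip x v) := by
  cases u with
  | P => exact h.elim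
  | M w b c =>
    rcases h with rfl | rfl | rfl
    · left
      simp only [flip]
      rw [hx w]
      cases b <;> cases c <;> cases x (false :: w) <;> cases x (true :: w) <;> rfl
    · exact Or.inr (Or.inl rfl)
    · exact Or.inr (Or.inr rfl)

def flipIso (x : List Bool → Bool) (hx : ∀ w, x w = xor (x (false :: w)) (x (true :: w))) :
    G ≃g G where
  toFun := flip x
  invFun := flip x
  left_inv := flip_flip x
  right_inv := flip_flip x
  map_rel_iff' := by
    intro u v
    constructor
    · intro h
      have : G.Adj (flip x (flip x u)) (flip x (flip x v)) := h.imp (flip_R x hx) (flip_R x hx)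
      rwa [flip_flip, flip_flip] at this
    · exact fun h => h.imp (flip_R x hx) (flip_R x hx)

def W : ℕ → Finset (List Bool)
  | 0 => {[]}
  | L + 1 => (W L).image (false :: ·) ∪ (W L).image (true :: ·)

lemma W_len : ∀ L, ∀ w ∈ W L, w.length = L := by
  intro L
  induction L with
  | zero => simp [W]
  | succ L ih =>
    intro w hw
    simp only [W, Finset.mem_union, Finset.mem_image] at hw
    rcases hw with ⟨u, hu, rfl⟩ | ⟨u, hu, rfl⟩ <;> simp [ih u hu]

lemma W_sum (L : ℕ) (g : List Bool → ℝ) :
    ∑ w ∈ W (L + 1), g w = ∑ w ∈ W L, (g (false :: w) + g (true :: w)) := by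
  rw [W, Finset.sum_union, Finset.sum_image (fun a _ b _ h => by simpa using h),
    Finset.sum_image (fun a _ b _ h => by simpa using h), Finset.sum_add_distrib]
  rw [Finset.disjoint_left]
  intro a h1 h2
  obtain ⟨u, -, rfl⟩ := Finset.mem_image.1 h1
  obtain ⟨u', -, h⟩ := Finset.mem_image.1 h2
  simp at h

lemma W_card (L : ℕ) : (L : ℝ) + 1 ≤ ∑ _w ∈ W L, (1 : ℝ) := by
  induction L with
  | zero => simp [W]
  | succ L ih =>
    rw [W_sum, Finset.sum_add_distrib]
    push_cast
    have : (0 : ℝ) ≤ L := Nat.cast_nonneg L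
    linarith

open Classical in
noncomputable def μ (F : List Bool → Prop) : ℕ → List Bool → ℝ
  | 0, w => if F w then 1 else 0
  | n + 1, w => (if F w then 1 else 0) + (μ F n (false :: w) + μ F n (true :: w)) / 2

lemma μ_nonneg (F : List Bool → Prop) : ∀ n w, 0 ≤ μ F n w := by
  intro n
  induction n with
  | zero => intro w; simp only [μ]; split_ifs <;> norm_num
  | succ n ih =>
    intro w
    have := ih (false :: w)
    have := ih (true :: w)
    simp only [μ]; split_ifs <;> positivity

lemma μ_mono (F : List Bool → Prop) (w : List Bool) : Monotone fun n => μ F n w := by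
  refine monotone_nat_of_le_succ fun n => ?_
  induction n generalizing w with
  | zero =>
    have := μ_nonneg F 0 (false :: w)
    have := μ_nonneg F 0 (true :: w)
    rw [μ, μ]; linarith
  | succ n ih =>
    have := ih (false :: w)
    have := ih (true :: w)
    rw [μ, μ]; linarith

lemma exists_x (F : List Bool → Prop) (c : ℕ) (hF : ∀ L, ∑ w ∈ W L, μ F 0 w ≤ c) :
    ∃ x : List Bool → Bool, (∀ w, x w = xor (x (false :: w)) (x (true :: w))) ∧
      (∃ w, x w = true) ∧ ∀ w, F w → x (false :: w) = false ∧ x (true :: w) = false := by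
  have h1 : ∀ n L, ∑ w ∈ W L, μ F n w ≤ 2 * c := by
    intro n
    induction n with
    | zero =>
      intro L
      have := hF L
      have : (0 : ℝ) ≤ c := Nat.cast_nonneg c
      linarith
    | succ n ih =>
      intro L
      have h2 := ih (L + 1)
      have h3 := hF L
      rw [W_sum] at h2
      simp only [μ] at h3 ⊢
      rw [Finset.sum_add_distrib, ← Finset.sum_div]
      linarith
  have h2 : ∃ w, ∀ n, μ F n w ≤ 1 / 3 := by
    by_contra hc
    push Not at hc
    choose ν hν using hc
    have h3 := h1 ((W (6 * c)).sup ν) (6 * c)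
    have h4 : ∑ _w ∈ W (6 * c), (1 : ℝ) / 3 ≤ ∑ w ∈ W (6 * c), μ F ((W (6 * c)).sup ν) w :=
      Finset.sum_le_sum fun w hw => (hν w).le.trans (μ_mono F w (Finset.le_sup hw))
    have h5 := W_card (6 * c)
    rw [← Finset.sum_div] at h4
    push_cast at h5
    linarith
  obtain ⟨w, hw⟩ := h2
  let Good : List Bool → Prop := fun u => ∀ n, μ F n u ≤ 2 / 3
  have gF : ∀ u, Good u → ¬ F u := by
    intro u hu h
    have := hu 0
    simp only [μ, h, if_true] at this
    linarith
  have gw : Good w := fun n => (hw n).trans (by norm_num)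
  have gc : ∀ a, Good (a :: w) := by
    intro a n
    have h3 := hw (n + 1)
    have h4 := μ_nonneg F n (false :: w)
    have h5 := μ_nonneg F n (true :: w)
    simp only [μ, gF w gw, if_false] at h3
    cases a <;> linarith
  have hn : ∀ u, ∃ a, Good u → Good (a :: u) := by
    intro u
    by_contra hc
    push Not at hc
    obtain ⟨hu, h3⟩ := hc false
    obtain ⟨-, h4⟩ := hc true
    simp only [Good, not_forall, not_le] at h3 h4
    obtain ⟨n0, h3⟩ := h3
    obtain ⟨n1, h4⟩ := h4
    have h5 := hu (max n0 n1 + 1)
    have h6 := μ_mono F (false :: u) (le_max_left n0 n1)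
    have h7 := μ_mono F (true :: u) (le_max_right n0 n1)
    simp only [μ, gF u hu, if_false] at h5
    simp only at h6 h7
    linarith
  choose nxt hnxt using hn
  let on : Bool → List Bool → Bool := fun a0 v =>
    List.rec false (fun a u r => if u = w then a == a0 else r && a == nxt u) v
  have on_cons : ∀ a0 a u, on a0 (a :: u) =
      if u = w then a == a0 else on a0 u && a == nxt u := fun _ _ _ => rfl
  have on_good : ∀ a0 v, on a0 v = true → Good v ∧ w.length < v.length := by
    intro a0 v
    induction v with
    | nil => intro h; exact absurd h (by simp [on])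
    | cons a u ih =>
      intro h
      rw [on_cons] at h
      split_ifs at h with e
      · subst e
        exact ⟨gc a, by simp⟩
      · simp only [Bool.and_eq_true, beq_iff_eq] at h
        obtain ⟨g1, g2⟩ := ih h.1
        exact ⟨h.2 ▸ hnxt u g1, by simp; omega⟩
  have on_w : ∀ a0, on a0 w = false := fun a0 => by
    by_contra h
    have := (on_good a0 w (by simpa using h)).2
    omega
  refine ⟨fun v => xor (on false v) (on true v), fun v => ?_, ⟨false :: w, ?_⟩, fun v hv => ?_⟩
  · simp only [on_cons]
    split_ifs with e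
    · subst e
      simp [on_w]
    · cases on false v <;> cases on true v <;> cases nxt v <;> rfl
  · simp [on_cons]
  · have e : v ≠ w := fun e => gF w gw (e ▸ hv)
    have k : ∀ a0, on a0 v = false := fun a0 => by
      by_contra h
      exact gF v (on_good a0 v (by simpa using h)).1 hv
    simp [on_cons, e, k]

theorem result : ∃ (V : Type) (G : SimpleGraph V) (v₀ : V), G.Connected ∧
    (∀ v, (G.neighborSet v).Finite) ∧
    (∀ g : G ≃g G, g ≠ SimpleGraph.Iso.refl → {v | g v ≠ v}.Infinite) ∧
    ∀ (C : ℕ) (red : Set V), (∀ r : ℕ, {v | G.dist v₀ v = r ∧ v ∈ red}.encard ≤ C) →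
      ∃ g : G ≃g G, g ≠ SimpleGraph.Iso.refl ∧ ∀ v, g v ∈ red ↔ v ∈ red := by
  classical
  refine ⟨V, G, P [] false, conn, locfin, fun g hg h => hg (motion g h), fun C red hC => ?_⟩
  obtain ⟨x, hx, ⟨w, hw⟩, hF⟩ := exists_x (fun w => ∃ v ∈ red, word v = w) (6 * C) (by
    intro L
    simp only [μ]
    rw [Finset.sum_boole, Nat.cast_le, ← Nat.cast_le (α := ℕ∞), ← Set.encard_coe_eq_coe_finsetCard]
    have hsub : (((W L).filter fun w => ∃ v ∈ red, word v = w : Finset _) : Set (List Bool)) ⊆
        word '' ⋃ r ∈ Finset.range 6, {v | G.dist (P [] false) v = 2 * L + r ∧ v ∈ red} := by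
      intro u hu
      simp only [Finset.coe_filter, Set.mem_setOf_eq] at hu
      obtain ⟨h1, v, hv, rfl⟩ := hu
      have h2 := dist_bounds v
      rw [W_len L _ h1] at h2
      refine ⟨v, Set.mem_iUnion₂.2 ⟨G.dist (P [] false) v - 2 * L, by simp; omega, by omega, hv⟩,
        rfl⟩
    refine (Set.encard_le_encard hsub).trans ((Set.encard_image_le _ _).trans
      ((Finset.set_encard_biUnion_le _ _).trans ?_))
    refine (Finset.sum_le_sum fun r _ => hC (2 * L + r)).trans ?_
    simp)
  have hfix : ∀ v ∈ red, flip x v = v := by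
    intro v hv
    obtain ⟨h1, h2⟩ := hF _ ⟨v, hv, rfl⟩
    cases v with
    | P u b =>
      simp only [word] at h1 h2
      simp [flip, hx u, h1, h2]
    | M u b c =>
      simp only [word] at h1 h2
      simp [flip, h1, h2]
  refine ⟨flipIso x hx, fun h => ?_, fun v => ⟨fun h => ?_, fun h => ?_⟩⟩
  · have : flip x (P w false) = P w false := congrArg (fun g : G ≃g G => g (P w false)) h
    simp [flip, hw] at this
  · have h1 : flip x v ∈ red := h
    have := hfix _ h1
    rw [flip_flip] at this
    rwa [this]
  · have : flip x v ∈ red := by rwa [hfix v h]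
    exact this

end Pool.Agent.Results.MP_f836f4_co.Counter
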